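import Pool.Agent.K1H25.HF.Stm

set_option autoImplicit false

/-!
# Entropy inequalities for the weights `Wt`
-/

namespace Pool.Agent.K1H33.HF

open Finset K1H25.HF

variable {n : ℕ}

/-- minus the entropy -/
noncomputable def Ps (k : MI n) : ℝ := ∑ i, (k i : ℝ) * Real.log ((k i : ℝ) / (tot k : ℝ))

lemma Wt_eq (k : MI n) : Wt k = Real.exp (Ps k / 2) := by
  unfold Wt Ps
  rw [Finset.sum_div, Real.exp_sum]
  apply Finset.prod_congr rfl
  intro i _
  rcases Nat.eq_zero_or_pos (k i) with h | h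
  · rw [h]; simp
  · have hk : (0 : ℝ) < k i := by exact_mod_cast h
    have ht : (0 : ℝ) < tot k := by
      have : k i ≤ tot k := Finset.single_le_sum (f := k) (fun _ _ => Nat.zero_le _) (Finset.mem_univ i)
      exact_mod_cast lt_of_lt_of_le h this
    rw [Real.rpow_def_of_pos (div_pos hk ht)]
    congr 1
    ring

lemma tot_cast (k : MI n) : (tot k : ℝ) = ∑ i, (k i : ℝ) := by
  unfold tot; push_cast; rfl

/-- Gibbs' inequality -/
lemma gibbs (k : MI n) (θ : Fin n → ℝ) (h0 : ∀ i, 0 ≤ θ i) (h1 : ∑ i, θ i ≤ 1)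
    (h2 : ∀ i, 0 < k i → 0 < θ i) : ∑ i, (k i : ℝ) * Real.log (θ i) ≤ Ps k := by
  have h3 : ∀ i, (k i : ℝ) * Real.log (θ i) - (k i : ℝ) * Real.log ((k i : ℝ) / (tot k : ℝ)) ≤
      (tot k : ℝ) * θ i - k i := by
    intro i
    rcases Nat.eq_zero_or_pos (k i) with h | h
    · rw [h]
      have := h0 i
      have h5 : (0 : ℝ) ≤ (tot k : ℝ) * θ i := by positivity
      simpa using h5
    · have hk : (0 : ℝ) < k i := by exact_mod_cast h
      have ht : (0 : ℝ) < tot k := by
        have : k i ≤ tot k := Finset.single_le_sum (f := k) (fun _ _ => Nat.zero_le _) (Finset.mem_univ i)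
        exact_mod_cast lt_of_lt_of_le h this
      have hθ := h2 i h
      have h4 := Real.log_le_sub_one_of_pos (show 0 < θ i * tot k / k i by positivity)
      have h5 : Real.log (θ i * tot k / k i) = Real.log (θ i) - Real.log ((k i : ℝ) / (tot k : ℝ)) := by
        rw [Real.log_div (by positivity) hk.ne', Real.log_mul hθ.ne' ht.ne', Real.log_div hk.ne' ht.ne']
        ring
      rw [h5] at h4
      have h6 := mul_le_mul_of_nonneg_left h4 hk.le
      have h7 : (k i : ℝ) * (θ i * tot k / k i - 1) = (tot k : ℝ) * θ i - k i := by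
        field_simp
      rw [h7] at h6
      linarith
  have h4 : ∑ i, ((k i : ℝ) * Real.log (θ i) - (k i : ℝ) * Real.log ((k i : ℝ) / (tot k : ℝ))) ≤
      ∑ i, ((tot k : ℝ) * θ i - k i) := Finset.sum_le_sum fun i _ => h3 i
  rw [Finset.sum_sub_distrib, Finset.sum_sub_distrib, ← Finset.mul_sum, ← tot_cast] at h4
  have h5 : (tot k : ℝ) * ∑ i, θ i ≤ tot k * 1 := mul_le_mul_of_nonneg_left h1 (Nat.cast_nonneg _)
  unfold Ps
  linarith

lemma le_tot (k : MI n) (i : Fin n) : k i ≤ tot k :=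
  Finset.single_le_sum (f := k) (fun _ _ => Nat.zero_le _) (Finset.mem_univ i)

lemma sum_dir_le (k : MI n) : ∑ i, (k i : ℝ) / (tot k : ℝ) ≤ 1 := by
  rw [← Finset.sum_div, ← tot_cast]
  exact div_self_le_one _

lemma sum_dir (k : MI n) (h : 0 < tot k) : ∑ i, (k i : ℝ) / (tot k : ℝ) = 1 := by
  rw [← Finset.sum_div, ← tot_cast]
  exact div_self (by exact_mod_cast h.ne')

lemma kap_eq (j l : MI n) : kap j l = Real.exp ((Ps (j + l) - Ps j - Ps l) / 2) := by
  unfold kap
  rw [Wt_eq, Wt_eq, Wt_eq, ← Real.exp_add, ← Real.exp_sub]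
  congr 1
  ring

/-- the sum with the direction of `j + l` -/
lemma Ps_add (j l : MI n) : Ps (j + l) =
    ∑ i, (j i : ℝ) * Real.log (((j + l) i : ℝ) / (tot (j + l) : ℝ)) +
      ∑ i, (l i : ℝ) * Real.log (((j + l) i : ℝ) / (tot (j + l) : ℝ)) := by
  unfold Ps
  rw [← Finset.sum_add_distrib]
  apply Finset.sum_congr rfl
  intro i _
  rw [Pi.add_apply]
  push_cast
  ring

lemma dir_pos (j l : MI n) (i : Fin n) (h : 0 < (j + l) i) :
    0 < (((j + l) i : ℕ) : ℝ) / (tot (j + l) : ℝ) := by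
  apply div_pos
  · exact_mod_cast h
  · exact_mod_cast h.trans_le (le_tot (j + l) i)

theorem t_KB : S_KB := by
  intro n hn
  refine ⟨fun k => by rw [Wt_eq]; exact Real.exp_pos _, ?_, ?_, ?_⟩
  · intro k
    rw [Wt_eq, Real.exp_le_one_iff]
    apply div_nonpos_of_nonpos_of_nonneg _ (by norm_num)
    unfold Ps
    apply Finset.sum_nonpos
    intro i _
    apply mul_nonpos_of_nonneg_of_nonpos (Nat.cast_nonneg _)
    apply Real.log_nonpos (by positivity)
    apply div_le_one_of_le₀ _ (Nat.cast_nonneg _)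
    exact_mod_cast le_tot k i
  · intro j l
    rw [kap_eq, Real.exp_le_one_iff]
    apply div_nonpos_of_nonpos_of_nonneg _ (by norm_num)
    have h1 := gibbs j (fun i => (((j + l) i : ℕ) : ℝ) / (tot (j + l) : ℝ)) (fun i => by positivity)
      (sum_dir_le _) (fun i hi => dir_pos j l i (by rw [Pi.add_apply]; omega))
    have h2 := gibbs l (fun i => (((j + l) i : ℕ) : ℝ) / (tot (j + l) : ℝ)) (fun i => by positivity)
      (sum_dir_le _) (fun i hi => dir_pos j l i (by rw [Pi.add_apply]; omega))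
    rw [Ps_add]
    linarith
  · intro k
    have hn0 : (0 : ℝ) < n := by exact_mod_cast hn
    have hn1 : (1 : ℝ) ≤ n := by exact_mod_cast hn
    have h1 := gibbs k (fun _ => 1 / (n : ℝ)) (fun i => by positivity)
      (by rw [Finset.sum_const, Finset.card_univ, Fintype.card_fin, nsmul_eq_mul, mul_one_div_cancel hn0.ne'])
      (fun i _ => by positivity)
    rw [← Finset.sum_mul, ← tot_cast, one_div, Real.log_inv] at h1
    have h2 : (n : ℝ) ^ tot k = Real.exp (tot k * Real.log n) := by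
      rw [← Real.rpow_natCast, Real.rpow_def_of_pos hn0, mul_comm]
    rw [Wt_eq, h2, ← Real.exp_add, Real.one_le_exp_iff]
    have h3 : 0 ≤ (tot k : ℝ) * Real.log n := mul_nonneg (Nat.cast_nonneg _) (Real.log_nonneg hn1)
    linarith

theorem t_LV : S_LV := by
  intro n T M b hn hT hM hb
  unfold Net at hb
  rw [Finset.mem_filter] at hb
  obtain ⟨_, h1, h2⟩ := hb
  have h3 : 0 < K1H25.HF.sq b := lt_of_lt_of_le (pow_pos (by omega) 2) h1
  have h4 : K1H25.HF.sq b ∣ M := (Nat.dvd_factorial h3 h2).trans hM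
  have h5 : ∀ i, lv M b i * K1H25.HF.sq b = M * b i ^ 2 := by
    intro i
    unfold lv
    exact Nat.div_mul_cancel (h4.mul_right _)
  refine ⟨?_, h5⟩
  have h6 : tot (lv M b) * K1H25.HF.sq b = M * K1H25.HF.sq b := by
    unfold tot
    rw [Finset.sum_mul, Finset.sum_congr rfl (fun i _ => h5 i), ← Finset.mul_sum]
    rfl
  exact Nat.eq_of_mul_eq_mul_right h3 h6

/-- termwise upper bound -/
lemma term_up (p q : ℝ) (hp : 0 ≤ p) (hq : 0 ≤ q) (h : p ≤ 4 * q) :
    p * (Real.log p - Real.log q) ≤ (p - q) + 9 * (√p - √q) ^ 2 := by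
  rcases hp.eq_or_lt with rfl | hp
  · rw [zero_mul, Real.sqrt_zero, zero_sub, zero_sub, neg_sq, Real.sq_sqrt hq]
    linarith
  · have hq' : 0 < q := by linarith
    have h1 := Real.log_le_sub_one_of_pos (div_pos hp hq')
    rw [Real.log_div hp.ne' hq'.ne'] at h1
    have h2 := mul_le_mul_of_nonneg_left h1 hp.le
    refine h2.trans ?_
    obtain ⟨a, ha⟩ : ∃ a, a = √p := ⟨_, rfl⟩
    obtain ⟨b, hb⟩ : ∃ b, b = √q := ⟨_, rfl⟩
    have ha0 : 0 < a := by rw [ha]; exact Real.sqrt_pos.2 hp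
    have hb0 : 0 < b := by rw [hb]; exact Real.sqrt_pos.2 hq'
    have hpa : p = a ^ 2 := by rw [ha, Real.sq_sqrt hp.le]
    have hqb : q = b ^ 2 := by rw [hb, Real.sq_sqrt hq'.le]
    rw [← ha, ← hb, hpa, hqb]
    have hab : a ≤ 2 * b := by
      rw [hpa, hqb] at h
      nlinarith
    have h3 : a ^ 2 * (a ^ 2 / b ^ 2 - 1) - (a ^ 2 - b ^ 2) = (a ^ 2 - b ^ 2) ^ 2 / b ^ 2 := by
      field_simp
    have h4 : (a ^ 2 - b ^ 2) ^ 2 / b ^ 2 ≤ 9 * (a - b) ^ 2 := by
      rw [div_le_iff₀ (by positivity)]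
      have h5 : (a + b) ^ 2 ≤ 9 * b ^ 2 := by nlinarith
      nlinarith [mul_le_mul_of_nonneg_left h5 (sq_nonneg (a - b))]
    linarith

/-- termwise lower bound -/
lemma term_lo (p q : ℝ) (hp : 0 ≤ p) (hq : 0 ≤ q) (h : 0 < p → 0 < q) :
    (p - q) + (√p - √q) ^ 2 ≤ p * (Real.log p - Real.log q) := by
  rcases hp.eq_or_lt with rfl | hp
  · rw [zero_mul, Real.sqrt_zero, zero_sub, zero_sub, neg_sq, Real.sq_sqrt hq]
    linarith
  · have hq' : 0 < q := h hp
    obtain ⟨a, ha⟩ : ∃ a, a = √p := ⟨_, rfl⟩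
    obtain ⟨b, hb⟩ : ∃ b, b = √q := ⟨_, rfl⟩
    have ha0 : 0 < a := by rw [ha]; exact Real.sqrt_pos.2 hp
    have hb0 : 0 < b := by rw [hb]; exact Real.sqrt_pos.2 hq'
    have hpa : p = a ^ 2 := by rw [ha, Real.sq_sqrt hp.le]
    have hqb : q = b ^ 2 := by rw [hb, Real.sq_sqrt hq'.le]
    rw [← ha, ← hb, hpa, hqb]
    have h1 := Real.log_le_sub_one_of_pos (div_pos hb0 ha0)
    rw [Real.log_div hb0.ne' ha0.ne'] at h1
    rw [Real.log_pow, Real.log_pow]
    push_cast
    have h2 := mul_le_mul_of_nonneg_left h1 (show 0 ≤ 2 * a ^ 2 by positivity)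
    have h3 : 2 * a ^ 2 * (b / a - 1) = 2 * a * b - 2 * a ^ 2 := by
      field_simp
    rw [h3] at h2
    nlinarith

theorem t_KUP : S_KUP := by
  intro n j l hj hl h
  rw [kap_eq]
  apply Real.exp_le_exp.2
  have hjp : (0 : ℝ) < tot j := by exact_mod_cast hj
  have hlp : (0 : ℝ) < tot l := by exact_mod_cast hl
  have h1 := gibbs (j + l) (fun i => (j i : ℝ) / (tot j : ℝ)) (fun i => by positivity) (sum_dir_le j) (by
    intro i hi
    rcases Nat.eq_zero_or_pos (j i) with h0 | h0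
    · exfalso
      have h2 := h i
      rw [h0] at h2
      have h3 : (0 : ℝ) < l i := by
        rw [Pi.add_apply, h0, zero_add] at hi
        exact_mod_cast hi
      have h4 : 0 < (l i : ℝ) / tot l := div_pos h3 hlp
      simp at h2
      linarith
    · exact div_pos (by exact_mod_cast h0) hjp)
  have h2 : ∑ i, ((((j + l) i : ℕ)) : ℝ) * Real.log ((j i : ℝ) / (tot j : ℝ)) =
      Ps j + ∑ i, (l i : ℝ) * Real.log ((j i : ℝ) / (tot j : ℝ)) := by
    unfold Ps
    rw [← Finset.sum_add_distrib]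
    apply Finset.sum_congr rfl
    intro i _
    rw [Pi.add_apply]
    push_cast
    ring
  rw [h2] at h1
  have h3 : ∑ i, ((l i : ℝ) / tot l) * (Real.log ((l i : ℝ) / tot l) - Real.log ((j i : ℝ) / tot j)) ≤
      ∑ i, (((l i : ℝ) / tot l - (j i : ℝ) / tot j) +
        9 * (√((l i : ℝ) / tot l) - √((j i : ℝ) / tot j)) ^ 2) := by
    apply Finset.sum_le_sum
    intro i _
    exact term_up _ _ (by positivity) (by positivity) (h i)
  rw [Finset.sum_add_distrib, Finset.sum_sub_distrib, sum_dir l hl, sum_dir j hj, sub_self, zero_add,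
    ← Finset.mul_sum] at h3
  have h4 : Ps l - ∑ i, (l i : ℝ) * Real.log ((j i : ℝ) / (tot j : ℝ)) = (tot l : ℝ) *
      ∑ i, ((l i : ℝ) / tot l) * (Real.log ((l i : ℝ) / tot l) - Real.log ((j i : ℝ) / tot j)) := by
    unfold Ps
    rw [← Finset.sum_sub_distrib, Finset.mul_sum]
    apply Finset.sum_congr rfl
    intro i _
    field_simp
  have h5 := mul_le_mul_of_nonneg_left h3 hlp.le
  rw [← h4] at h5
  unfold hell2
  nlinarith [h1, h5]

theorem t_KLO : S_KLO := by
  intro n j l hl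
  rw [kap_eq]
  apply Real.exp_le_exp.2
  have hlp : (0 : ℝ) < tot l := by exact_mod_cast hl
  have hjl : 0 < tot (j + l) := by rw [tot_add]; omega
  have h1 := gibbs j (fun i => (((j + l) i : ℕ) : ℝ) / (tot (j + l) : ℝ)) (fun i => by positivity)
    (sum_dir_le _) (fun i hi => dir_pos j l i (by rw [Pi.add_apply]; omega))
  have h3 : ∑ i, (((l i : ℝ) / tot l - (((j + l) i : ℕ) : ℝ) / tot (j + l)) +
        (√((l i : ℝ) / tot l) - √((((j + l) i : ℕ) : ℝ) / tot (j + l))) ^ 2) ≤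
      ∑ i, ((l i : ℝ) / tot l) * (Real.log ((l i : ℝ) / tot l) -
        Real.log ((((j + l) i : ℕ) : ℝ) / tot (j + l))) := by
    apply Finset.sum_le_sum
    intro i _
    apply term_lo _ _ (by positivity) (by positivity)
    intro h0
    apply dir_pos
    have h4 : (0 : ℝ) < l i := by
      by_contra hcon
      have : (l i : ℝ) = 0 := le_antisymm (not_lt.1 hcon) (Nat.cast_nonneg _)
      rw [this, zero_div] at h0
      exact lt_irrefl _ h0
    have h5 : 0 < l i := by exact_mod_cast h4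
    rw [Pi.add_apply]
    omega
  rw [Finset.sum_add_distrib, Finset.sum_sub_distrib, sum_dir l hl, sum_dir (j + l) hjl, sub_self, zero_add]
    at h3
  have h4 : Ps l - ∑ i, (l i : ℝ) * Real.log ((((j + l) i : ℕ) : ℝ) / (tot (j + l) : ℝ)) = (tot l : ℝ) *
      ∑ i, ((l i : ℝ) / tot l) * (Real.log ((l i : ℝ) / tot l) -
        Real.log ((((j + l) i : ℕ) : ℝ) / tot (j + l))) := by
    unfold Ps
    rw [← Finset.sum_sub_distrib, Finset.mul_sum]
    apply Finset.sum_congr rfl
    intro i _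
    field_simp
  have h5 := mul_le_mul_of_nonneg_left h3 hlp.le
  rw [← h4] at h5
  have h6 := Ps_add j l
  unfold hell2
  nlinarith [h1, h5, h6]

end Pool.Agent.K1H33.HF
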